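import Mathlib
import Pool.Agent.Helper627_LipNets.Pelczynski

open scoped ENNReal

namespace Pool.Agent.Results.MP_1d1573_an.NetsInfiniteSum

/-- `N` is a net in the metric space `X`: it is `ε`-separated and `δ`-dense
for some positive `ε`, `δ`. -/
def IsNet {X : Type*} [MetricSpace X] (N : Set X) : Prop :=
  ∃ ε : ℝ, 0 < ε ∧ ∃ δ : ℝ, 0 < δ ∧
    (∀ x ∈ N, ∀ y ∈ N, x ≠ y → ε ≤ dist x y) ∧ ∀ x : X, ∃ y ∈ N, dist x y < δ

/-- The real vector space of all real Lipschitz functions on `M` vanishing at `o`. -/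
def lipSub (M : Type*) [MetricSpace M] (o : M) : Submodule ℝ (M → ℝ) where
  carrier := {f | f o = 0 ∧ ∃ K : ℝ, ∀ x y, |f x - f y| ≤ K * dist x y}
  add_mem' := by
    rintro f g ⟨hf0, K, hK⟩ ⟨hg0, L, hL⟩
    refine ⟨by simp [hf0, hg0], K + L, fun x y => ?_⟩
    have h1 := hK x y
    have h2 := hL x y
    have : (f + g) x - (f + g) y = (f x - f y) + (g x - g y) := by
      simp only [Pi.add_apply]; ring
    rw [this]
    calc |(f x - f y) + (g x - g y)| ≤ |f x - f y| + |g x - g y| := abs_add_le _ _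
      _ ≤ K * dist x y + L * dist x y := add_le_add h1 h2
      _ = (K + L) * dist x y := by ring
  zero_mem' := ⟨rfl, 0, fun x y => by simp⟩
  smul_mem' := by
    rintro c f ⟨hf0, K, hK⟩
    refine ⟨by simp [hf0], |c| * K, fun x y => ?_⟩
    have : (c • f) x - (c • f) y = c * (f x - f y) := by
      simp only [Pi.smul_apply, smul_eq_mul]; ring
    rw [this, abs_mul, mul_assoc]
    exact mul_le_mul_of_nonneg_left (hK x y) (abs_nonneg c)

/-- `Lip₀(M)` with base point `o`, as a real vector space. -/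
def Lip0 (M : Type*) [MetricSpace M] (o : M) : Type _ := lipSub M o

section basics

variable {M : Type*} [MetricSpace M] {o : M}

instance : AddCommGroup (Lip0 M o) := inferInstanceAs (AddCommGroup (lipSub M o))

instance : Module ℝ (Lip0 M o) := inferInstanceAs (Module ℝ (lipSub M o))

/-- The Lipschitz norm. -/
noncomputable instance : Norm (Lip0 M o) :=
  ⟨fun f => ⨆ p : M × M, |f.1 p.1 - f.1 p.2| / dist p.1 p.2⟩

theorem norm_def (f : Lip0 M o) :
    ‖f‖ = ⨆ p : M × M, |f.1 p.1 - f.1 p.2| / dist p.1 p.2 := rfl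

theorem base (f : Lip0 M o) : f.1 o = 0 := f.2.1

@[simp] theorem add_val (f g : Lip0 M o) (x : M) : (f + g).1 x = f.1 x + g.1 x := rfl

@[simp] theorem smul_val (c : ℝ) (f : Lip0 M o) (x : M) : (c • f).1 x = c * f.1 x := rfl

@[simp] theorem zero_val (x : M) : (0 : Lip0 M o).1 x = 0 := rfl

theorem ext' {f g : Lip0 M o} (h : ∀ x, f.1 x = g.1 x) : f = g :=
  Subtype.ext (funext h)

theorem slope_le {f : M → ℝ} {K : ℝ} (hK0 : 0 ≤ K) (hK : ∀ x y, |f x - f y| ≤ K * dist x y)
    (p : M × M) : |f p.1 - f p.2| / dist p.1 p.2 ≤ K := by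
  rcases eq_or_lt_of_le (dist_nonneg (x := p.1) (y := p.2)) with h | h
  · rw [← h, div_zero]; exact hK0
  · rw [div_le_iff₀ h]; exact hK _ _

theorem bdd (f : Lip0 M o) :
    BddAbove (Set.range fun p : M × M => |f.1 p.1 - f.1 p.2| / dist p.1 p.2) := by
  obtain ⟨K, hK⟩ := f.2.2
  refine ⟨max K 0, ?_⟩
  rintro _ ⟨p, rfl⟩
  refine slope_le (le_max_right _ _) (fun x y => (hK x y).trans ?_) p
  exact mul_le_mul_of_nonneg_right (le_max_left _ _) dist_nonneg

theorem le_norm (f : Lip0 M o) (x y : M) : |f.1 x - f.1 y| ≤ ‖f‖ * dist x y := by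
  rcases eq_or_ne x y with rfl | hxy
  · simp
  · have h : 0 < dist x y := dist_pos.2 hxy
    rw [← div_le_iff₀ h]
    exact le_ciSup (bdd f) (x, y)

theorem norm_le {f : Lip0 M o} {K : ℝ} (hK0 : 0 ≤ K)
    (hK : ∀ x y, |f.1 x - f.1 y| ≤ K * dist x y) : ‖f‖ ≤ K :=
  Real.iSup_le (fun p => slope_le hK0 hK p) hK0

theorem norm_nonneg' (f : Lip0 M o) : 0 ≤ ‖f‖ :=
  Real.iSup_nonneg fun _ => div_nonneg (abs_nonneg _) dist_nonneg

theorem core : NormedSpace.Core ℝ (Lip0 M o) where
  norm_nonneg := norm_nonneg'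
  norm_smul := by
    intro c f
    rw [norm_def, norm_def, Real.norm_eq_abs, Real.mul_iSup_of_nonneg (abs_nonneg c)]
    congr 1
    funext p
    rw [smul_val, smul_val, ← mul_sub, abs_mul, mul_div_assoc]
  norm_triangle := by
    intro f g
    refine norm_le (add_nonneg (norm_nonneg' f) (norm_nonneg' g)) fun x y => ?_
    rw [add_val, add_val]
    calc |f.1 x + g.1 x - (f.1 y + g.1 y)| = |(f.1 x - f.1 y) + (g.1 x - g.1 y)| := by ring_nf
      _ ≤ |f.1 x - f.1 y| + |g.1 x - g.1 y| := abs_add_le _ _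
      _ ≤ ‖f‖ * dist x y + ‖g‖ * dist x y := add_le_add (le_norm f x y) (le_norm g x y)
      _ = (‖f‖ + ‖g‖) * dist x y := by ring
  norm_eq_zero_iff := by
    intro f
    constructor
    · intro h
      refine ext' fun x => ?_
      have := le_norm f x o
      rw [h, zero_mul, base, sub_zero] at this
      simpa using abs_nonpos_iff.1 this
    · rintro rfl
      rw [norm_def]
      simp

noncomputable instance : NormedAddCommGroup (Lip0 M o) := NormedAddCommGroup.ofCore core

noncomputable instance : NormedSpace ℝ (Lip0 M o) := NormedSpace.ofCore core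

end basics

/-! ### Cut-off functions -/

/-- plateau function: `1` on `t ≤ 1`, `0` on `t ≥ 2` -/
noncomputable def rh (t : ℝ) : ℝ := max 0 (min 1 (2 - t))

/-- hat function supported in `[1/2, 2]` -/
noncomputable def Th (t : ℝ) : ℝ := max 0 (min (2 * t - 1) (2 - t))

theorem rh_nonneg (t : ℝ) : 0 ≤ rh t := le_max_left _ _

theorem rh_le_one (t : ℝ) : rh t ≤ 1 := max_le zero_le_one (min_le_left _ _)

theorem rh_eq_one {t : ℝ} (h : t ≤ 1) : rh t = 1 := by
  rw [rh, min_eq_left (by linarith), max_eq_right zero_le_one]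

theorem rh_ne {t : ℝ} (h : rh t ≠ 0) : t < 2 := by
  by_contra hc
  push Not at hc
  apply h
  rw [rh, max_eq_left]
  exact (min_le_right _ _).trans (by linarith)

theorem rh_lip (s t : ℝ) : |rh s - rh t| ≤ |s - t| := by
  have key : ∀ s t : ℝ, s ≤ t → |rh s - rh t| ≤ |s - t| := by
    intro s t hst
    rw [abs_le, abs_of_nonpos (by linarith : s - t ≤ 0)]
    simp only [rh, max_def, min_def]
    constructor <;> split_ifs <;> linarith
  rcases le_total s t with h | h
  · exact key s t h
  · rw [abs_sub_comm, abs_sub_comm s t]; exact key t s h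

theorem Th_nonneg (t : ℝ) : 0 ≤ Th t := le_max_left _ _

theorem Th_le_one (t : ℝ) : Th t ≤ 1 := by
  refine max_le zero_le_one ?_
  rcases le_total t 1 with h | h
  · exact (min_le_left _ _).trans (by linarith)
  · exact (min_le_right _ _).trans (by linarith)

theorem Th_ne {t : ℝ} (h : Th t ≠ 0) : 1 / 2 < t ∧ t < 2 := by
  constructor
  · by_contra hc
    push Not at hc
    apply h
    rw [Th, max_eq_left]
    exact (min_le_left _ _).trans (by linarith)
  · by_contra hc
    push Not at hc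
    apply h
    rw [Th, max_eq_left]
    exact (min_le_right _ _).trans (by linarith)

theorem Th_lip (s t : ℝ) : |Th s - Th t| ≤ 2 * |s - t| := by
  have key : ∀ s t : ℝ, s ≤ t → |Th s - Th t| ≤ 2 * |s - t| := by
    intro s t hst
    rw [abs_le, abs_of_nonpos (by linarith : s - t ≤ 0)]
    simp only [Th, max_def, min_def]
    constructor <;> split_ifs <;> linarith
  rcases le_total s t with h | h
  · exact key s t h
  · rw [abs_sub_comm, abs_sub_comm s t]; exact key t s h

theorem Th_sum {t : ℝ} (h1 : 1 ≤ t) (h2 : t ≤ 2) : Th t + Th (t / 2) = 1 := by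
  have e1 : Th t = 2 - t := by
    rw [Th, min_eq_right (by linarith), max_eq_right (by linarith)]
  have e2 : Th (t / 2) = t - 1 := by
    rw [Th, min_eq_left (by linarith), max_eq_right (by linarith)]; ring
  rw [e1, e2]; ring

/-- Multiplying a Lipschitz function vanishing at `o` by a cut-off function. -/
theorem cut_lip {M : Type*} [MetricSpace M] {o : M} {φ h : M → ℝ} {A B r L : ℝ}
    (hr : 0 < r) (hA : 0 ≤ A) (hB : 0 ≤ B) (hL : 0 ≤ L)
    (hφ0 : ∀ w, 0 ≤ φ w) (hφ1 : ∀ w, φ w ≤ 1)
    (hφl : ∀ w w', |φ w - φ w'| ≤ A / r * dist w w')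
    (hφs : ∀ w, φ w ≠ 0 → dist w o ≤ B * r)
    (hh0 : h o = 0) (hh : ∀ w w', |h w - h w'| ≤ L * dist w w') :
    ∀ w w', |φ w * h w - φ w' * h w'| ≤ (1 + A * B) * L * dist w w' := by
  have key : ∀ w w', φ w' ≠ 0 → |φ w * h w - φ w' * h w'| ≤ (1 + A * B) * L * dist w w' := by
    intro w w' hne
    have e : φ w * h w - φ w' * h w' = φ w * (h w - h w') + (φ w - φ w') * h w' := by ring
    have hb : |h w'| ≤ L * (B * r) := by
      have := hh w' o
      rw [hh0, sub_zero] at this
      exact this.trans (mul_le_mul_of_nonneg_left (hφs w' hne) hL)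
    have hd : 0 ≤ dist w w' := dist_nonneg
    calc |φ w * h w - φ w' * h w'| = |φ w * (h w - h w') + (φ w - φ w') * h w'| := by rw [e]
      _ ≤ |φ w * (h w - h w')| + |(φ w - φ w') * h w'| := abs_add_le _ _
      _ = φ w * |h w - h w'| + |φ w - φ w'| * |h w'| := by
          rw [abs_mul, abs_mul, abs_of_nonneg (hφ0 w)]
      _ ≤ 1 * (L * dist w w') + (A / r * dist w w') * (L * (B * r)) := by
          refine add_le_add ?_ ?_
          · exact mul_le_mul (hφ1 w) (hh w w') (abs_nonneg _) zero_le_one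
          · exact mul_le_mul (hφl w w') hb (abs_nonneg _) (by positivity)
      _ = (1 + A * B) * L * dist w w' := by
          field_simp
  intro w w'
  by_cases h1 : φ w' = 0
  · by_cases h2 : φ w = 0
    · rw [h1, h2]
      simp only [zero_mul, sub_zero, abs_zero]
      positivity
    · rw [abs_sub_comm, dist_comm]
      exact key w' w h2
  · exact key w w' h1

/-! ### Maps between a net and itself -/

section maps

variable {X : Type*} [NormedAddCommGroup X] [NormedSpace ℝ X] {N : Set X}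

theorem lip_of_near {ε δ : ℝ} (hε : 0 < ε) (hδ : 0 < δ)
    (hsep : ∀ x ∈ N, ∀ y ∈ N, x ≠ y → ε ≤ dist x y)
    {T : N → X} {μ : ℝ} (f : N → N) (hf : ∀ w, dist (f w : X) (T w) < δ)
    (hT : ∀ w w', dist (T w) (T w') ≤ μ * dist w w') (w w' : N) :
    dist (f w) (f w') ≤ (μ + 2 * δ / ε) * dist w w' := by
  rcases eq_or_ne w w' with rfl | hne
  · simp
  · have h1 : ε ≤ dist w w' :=
      hsep w w.2 w' w'.2 (fun h => hne (Subtype.ext h))
    have h2 : dist (f w) (f w') ≤ δ + μ * dist w w' + δ := by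
      have a1 := (hf w).le
      have a2 := (hf w').le
      have a3 := hT w w'
      have a4 : dist (f w : X) (f w' : X) ≤
          dist (f w : X) (T w) + dist (T w) (T w') + dist (T w') (f w' : X) :=
        dist_triangle4 _ _ _ _
      rw [dist_comm (T w')] at a4
      have a5 : dist (f w) (f w') = dist (f w : X) (f w' : X) := rfl
      rw [a5]
      linarith
    have h3 : 2 * δ ≤ 2 * δ / ε * dist w w' := by
      rw [div_mul_eq_mul_div, le_div_iff₀ hε]
      exact mul_le_mul_of_nonneg_left h1 (by positivity)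
    nlinarith

theorem exists_maps {ε δ : ℝ} (hε : 0 < ε) (hδ : 0 < δ)
    (hsep : ∀ x ∈ N, ∀ y ∈ N, x ≠ y → ε ≤ dist x y)
    (hden : ∀ x : X, ∃ y ∈ N, dist x y < δ) (o : N) (c : X) :
    ∃ ι π : N → N,
      (∀ w, dist (ι w : X) (c + (1 + 2 * δ / ε) • ((w : X) - o)) < δ) ∧
      (∀ z, dist (π z : X) ((o : X) + (1 + 2 * δ / ε)⁻¹ • ((z : X) - c)) < δ) ∧
      (∀ w, π (ι w) = w) := by
  classical
  set lam : ℝ := 1 + 2 * δ / ε with hlam
  have hlam1 : 1 ≤ lam := by
    have : 0 ≤ 2 * δ / ε := by positivity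
    linarith
  have hlam0 : 0 < lam := by linarith
  have h1 : ∀ w : N, ∃ y : N, dist (y : X) (c + lam • ((w : X) - o)) < δ := by
    intro w
    obtain ⟨y, hy, hy'⟩ := hden (c + lam • ((w : X) - o))
    exact ⟨⟨y, hy⟩, by rw [dist_comm]; exact hy'⟩
  choose ι hι using h1
  have h2 : ∀ z : N, ∃ y : N, dist (y : X) ((o : X) + lam⁻¹ • ((z : X) - c)) < δ := by
    intro z
    obtain ⟨y, hy, hy'⟩ := hden ((o : X) + lam⁻¹ • ((z : X) - c))
    exact ⟨⟨y, hy⟩, by rw [dist_comm]; exact hy'⟩
  choose π' hπ' using h2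
  have hinj : Function.Injective ι := by
    intro w w' hww
    by_contra hne
    have h3 : ε ≤ dist (w : X) (w' : X) :=
      hsep w w.2 w' w'.2 (fun h => hne (Subtype.ext h))
    have h4 : dist (c + lam • ((w : X) - o)) (c + lam • ((w' : X) - o)) < δ + δ := by
      have a1 := hι w
      have a2 := hι w'
      rw [← hww] at a2
      calc dist (c + lam • ((w : X) - o)) (c + lam • ((w' : X) - o))
          ≤ dist (c + lam • ((w : X) - o)) (ι w : X) + dist (ι w : X) (c + lam • ((w' : X) - o)) :=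
            dist_triangle _ _ _
        _ < δ + δ := by rw [dist_comm _ (ι w : X)]; exact add_lt_add a1 a2
    have h5 : dist (c + lam • ((w : X) - o)) (c + lam • ((w' : X) - o)) =
        lam * dist (w : X) (w' : X) := by
      rw [dist_add_left, dist_smul₀, dist_sub_right, Real.norm_of_nonneg hlam0.le]
    rw [h5] at h4
    have h6 : lam * ε ≤ lam * dist (w : X) (w' : X) := mul_le_mul_of_nonneg_left h3 hlam0.le
    have h7 : lam * ε = ε + 2 * δ := by
      rw [hlam]; field_simp
    linarith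
  refine ⟨ι, fun z => if h : ∃ w, ι w = z then h.choose else π' z, hι, ?_, ?_⟩
  · intro z
    by_cases h : ∃ w, ι w = z
    · simp only [h, dif_pos]
      have hw := h.choose_spec
      set w := h.choose
      have a1 := hι w
      rw [hw] at a1
      have e : dist (w : X) ((o : X) + lam⁻¹ • ((z : X) - c)) =
          lam⁻¹ * dist (z : X) (c + lam • ((w : X) - o)) := by
        have : (w : X) = (o : X) + lam⁻¹ • ((c + lam • ((w : X) - o)) - c) := by
          rw [add_sub_cancel_left, smul_smul, inv_mul_cancel₀ hlam0.ne', one_smul]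
          abel
        conv_lhs => rw [this]
        rw [dist_add_left, dist_smul₀, dist_sub_right, dist_comm,
          Real.norm_of_nonneg (inv_nonneg.2 hlam0.le)]
      rw [e]
      calc lam⁻¹ * dist (z : X) (c + lam • ((w : X) - o))
          ≤ 1 * dist (z : X) (c + lam • ((w : X) - o)) :=
            mul_le_mul_of_nonneg_right (inv_le_one_of_one_le₀ hlam1) dist_nonneg
        _ < δ := by rw [one_mul]; exact a1
    · simp only [h, dif_neg, not_false_iff]
      exact hπ' z
  · intro w
    have h : ∃ w', ι w' = ι w := ⟨w, rfl⟩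
    simp only [h, dif_pos]
    exact hinj h.choose_spec

/-- Centres far apart. -/
theorem exists_centres [Nontrivial X] (s : ℕ → ℝ) (hs : ∀ n, 0 < s n) :
    ∃ c : ℕ → X, ∀ m n, m ≠ n → s m + s n ≤ dist (c m) (c n) := by
  obtain ⟨e, he⟩ := exists_norm_eq X (zero_le_one (α := ℝ))
  let t : ℕ → ℝ := fun n => s n + 2 * ∑ j ∈ Finset.range n, s j
  have key : ∀ m n, m < n → s m + s n ≤ t n - t m := by
    intro m n hmn
    have h1 : ∑ j ∈ Finset.range m, s j + s m ≤ ∑ j ∈ Finset.range n, s j := by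
      rw [← Finset.sum_range_succ]
      exact Finset.sum_le_sum_of_subset_of_nonneg
        (Finset.range_mono hmn) (fun j _ _ => (hs j).le)
    simp only [t]
    linarith
  refine ⟨fun n => t n • e, fun m n hmn => ?_⟩
  have h2 : dist (t m • e) (t n • e) = |t m - t n| := by
    rw [dist_eq_norm, ← sub_smul, norm_smul, he, mul_one, Real.norm_eq_abs]
  rw [h2]
  rcases lt_or_gt_of_ne hmn with h | h
  · have := key m n h
    rw [abs_sub_comm]
    exact this.trans (le_abs_self _)
  · have := key n m h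
    rw [add_comm]
    exact this.trans (le_abs_self _)

end maps

/-! ### The main construction -/

section main

variable {X : Type*} [NormedAddCommGroup X] [NormedSpace ℝ X] {N : Set X}

/-- The data used in the construction: separation `ε`, a scale `K`, centres `c n`, radii `s n`,
and for every `n` two Lipschitz maps `ι n`, `π n` of the net with `π n ∘ ι n = id`. -/
structure Data (N : Set X) (o : N) where
  ε : ℝ
  hε : 0 < ε
  K : ℝ
  hK : 0 ≤ K
  sep : ∀ w : N, w ≠ o → ε ≤ dist w o
  c : ℕ → X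
  s : ℕ → ℝ
  disj : ∀ m n, m ≠ n → s m + s n ≤ dist (c m) (c n)
  ι : ℕ → N → N
  π : ℕ → N → N
  πι : ∀ n w, π n (ι n w) = w
  ι_lip : ∀ n w w', dist (ι n w) (ι n w') ≤ K * dist w w'
  π_lip : ∀ n w w', dist (π n w) (π n w') ≤ K * dist w w'
  ι_near : ∀ (n : ℕ) (w : N), dist w o ≤ 2 * (ε * 2 ^ (Nat.unpair n).2) → dist (ι n w : X) (c n) < s n
  π_far : ∀ (n : ℕ) (z : N), s n ≤ dist (z : X) (c n) → 4 * (ε * 2 ^ (Nat.unpair n).2) ≤ dist (π n z) o

theorem exists_data [Nontrivial X] (hN : IsNet N) (o : N) : Nonempty (Data N o) := by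
  obtain ⟨ε, hε, δ, hδ, hsep, hden⟩ := hN
  set lam : ℝ := 1 + 2 * δ / ε with hlam
  have hq : 0 ≤ 2 * δ / ε := by positivity
  have hlam1 : 1 ≤ lam := by linarith
  have hlam0 : 0 < lam := by linarith
  set s : ℕ → ℝ := fun n => lam * (4 * (ε * 2 ^ (Nat.unpair n).2) + δ) with hs
  have hs0 : ∀ n, 0 < s n := fun n => by simp only [hs]; positivity
  obtain ⟨c, hc⟩ := exists_centres (X := X) s hs0
  choose ι π hι hπ hπι using fun n => exists_maps hε hδ hsep hden o (c n)
  refine ⟨⟨ε, hε, lam + 2 * δ / ε, by positivity, ?_, c, s, hc, ι, π, hπι, ?_, ?_, ?_, ?_⟩⟩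
  · intro w hw
    exact hsep w w.2 o o.2 (fun h => hw (Subtype.ext h))
  · intro n w w'
    refine lip_of_near hε hδ hsep (ι n) (hι n) (fun w w' => ?_) w w'
    rw [dist_add_left, dist_smul₀, dist_sub_right, Real.norm_of_nonneg hlam0.le]
    exact le_rfl
  · intro n w w'
    have := lip_of_near hε hδ hsep (μ := 1) (π n) (hπ n) (fun w w' => by
      rw [dist_add_left, dist_smul₀, dist_sub_right, Real.norm_of_nonneg (inv_nonneg.2 hlam0.le)]
      exact mul_le_mul_of_nonneg_right (inv_le_one_of_one_le₀ hlam1) dist_nonneg) w w'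
    refine this.trans (mul_le_mul_of_nonneg_right ?_ dist_nonneg)
    linarith
  · intro n w hw
    have h1 := hι n w
    have h2 : dist (c n + lam • ((w : X) - o)) (c n) = lam * dist (w : X) o := by
      rw [dist_eq_norm, add_sub_cancel_left, norm_smul, Real.norm_of_nonneg hlam0.le,
        dist_eq_norm]
    have h3 : dist (ι n w : X) (c n) ≤
        dist (ι n w : X) (c n + lam • ((w : X) - o)) + dist (c n + lam • ((w : X) - o)) (c n) :=
      dist_triangle _ _ _
    have h4 : lam * dist (w : X) o ≤ lam * (2 * (ε * 2 ^ (Nat.unpair n).2)) :=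
      mul_le_mul_of_nonneg_left hw hlam0.le
    have h5 : δ ≤ lam * δ := by nlinarith
    have h6 : 0 ≤ lam * (ε * 2 ^ (Nat.unpair n).2) := by positivity
    simp only [hs]
    rw [h2] at h3
    nlinarith
  · intro n z hz
    have h1 := hπ n z
    have h2 : dist ((o : X) + lam⁻¹ • ((z : X) - c n)) (o : X) = lam⁻¹ * dist (z : X) (c n) := by
      rw [dist_eq_norm, add_sub_cancel_left, norm_smul, Real.norm_of_nonneg (inv_nonneg.2 hlam0.le),
        dist_eq_norm]
    have h3 : dist ((o : X) + lam⁻¹ • ((z : X) - c n)) (o : X) ≤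
        dist ((o : X) + lam⁻¹ • ((z : X) - c n)) (π n z : X) + dist (π n z : X) (o : X) :=
      dist_triangle _ _ _
    rw [dist_comm _ (π n z : X)] at h3
    have h4 : 4 * (ε * 2 ^ (Nat.unpair n).2) + δ ≤ lam⁻¹ * dist (z : X) (c n) := by
      rw [inv_mul_eq_div, le_div_iff₀ hlam0, mul_comm]
      exact hz
    have h5 : dist (π n z) o = dist (π n z : X) (o : X) := rfl
    rw [h5]
    rw [h2] at h3
    linarith

variable {o : N} (D : Data N o)

/-- radius of the piece with index `k` -/
noncomputable def rad (k : ℕ) : ℝ := D.ε * 2 ^ k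

theorem rad_pos (k : ℕ) : 0 < rad D k := by
  have := D.hε
  unfold rad
  positivity

/-- the cut piece of `f i` of size `k`, where `n` codes `(i, k)` -/
noncomputable def P (n : ℕ) (f : ℕ → Lip0 N o) (w : N) : ℝ :=
  rh (dist w o / (2 * rad D (Nat.unpair n).2)) * (f (Nat.unpair n).1).1 w

theorem P_lip (n : ℕ) (f : ℕ → Lip0 N o) {C : ℝ} (hC : ∀ i, ‖f i‖ ≤ C) (hC0 : 0 ≤ C)
    (w w' : N) : |P D n f w - P D n f w'| ≤ 3 * C * dist w w' := by
  have hr := rad_pos D (Nat.unpair n).2
  have := cut_lip (o := o) (φ := fun w => rh (dist w o / (2 * rad D (Nat.unpair n).2)))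
    (h := fun w => (f (Nat.unpair n).1).1 w) (A := 1 / 2) (B := 4)
    (r := rad D (Nat.unpair n).2) (L := C) hr (by norm_num) (by norm_num) hC0
    (fun w => rh_nonneg _) (fun w => rh_le_one _) ?_ ?_ (base _) ?_ w w'
  · refine this.trans (le_of_eq ?_)
    norm_num
  · intro w w'
    refine (rh_lip _ _).trans ?_
    rw [← sub_div, abs_div, abs_of_pos (by positivity : 0 < 2 * rad D (Nat.unpair n).2)]
    have h1 : |dist w o - dist w' o| ≤ dist w w' := abs_dist_sub_le _ _ _
    have h2 : 1 / 2 / rad D (Nat.unpair n).2 * dist w w' =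
        dist w w' / (2 * rad D (Nat.unpair n).2) := by
      field_simp
    rw [h2]
    exact div_le_div_of_nonneg_right h1 (by positivity)
  · intro w hw
    have h := rh_ne hw
    rw [div_lt_iff₀ (by positivity)] at h
    linarith
  · intro w w'
    exact (le_norm _ w w').trans (mul_le_mul_of_nonneg_right (hC _) dist_nonneg)

theorem P_zero {n : ℕ} (f : ℕ → Lip0 N o) {z : N} (hz : D.s n ≤ dist (z : X) (D.c n)) :
    P D n f (D.π n z) = 0 := by
  have h1 := D.π_far n z hz
  have hr := rad_pos D (Nat.unpair n).2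
  by_contra hne
  have h2 : rh (dist (D.π n z) o / (2 * rad D (Nat.unpair n).2)) ≠ 0 := by
    intro h0
    apply hne
    rw [P, h0, zero_mul]
  have h3 := rh_ne h2
  rw [div_lt_iff₀ (by positivity)] at h3
  unfold rad at h3
  linarith

open Classical in
/-- the glued function (before normalisation at the base point) -/
noncomputable def G (f : ℕ → Lip0 N o) (z : N) : ℝ :=
  if h : ∃ n, dist (z : X) (D.c n) < D.s n then P D h.choose f (D.π h.choose z) else 0

theorem G_eq {n : ℕ} {z : N} (f : ℕ → Lip0 N o) (hz : dist (z : X) (D.c n) < D.s n) :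
    G D f z = P D n f (D.π n z) := by
  have h : ∃ n, dist (z : X) (D.c n) < D.s n := ⟨n, hz⟩
  rw [G, dif_pos h]
  have h1 := h.choose_spec
  have h2 : h.choose = n := by
    by_contra hne
    have h3 := D.disj _ _ hne
    have h4 : dist (D.c h.choose) (D.c n) ≤
        dist (D.c h.choose) (z : X) + dist (z : X) (D.c n) := dist_triangle _ _ _
    rw [dist_comm _ (z : X)] at h4
    linarith
  rw [h2]

theorem G_alt (z : N) : ∃ n, ∀ f : ℕ → Lip0 N o, G D f z = P D n f (D.π n z) ∧
    ∀ m, m ≠ n → P D m f (D.π m z) = 0 := by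
  by_cases h : ∃ n, dist (z : X) (D.c n) < D.s n
  · obtain ⟨n, hn⟩ := h
    refine ⟨n, fun f => ⟨G_eq D f hn, fun m hm => P_zero D f ?_⟩⟩
    by_contra hlt
    push Not at hlt
    have h3 := D.disj _ _ hm
    have h4 : dist (D.c m) (D.c n) ≤ dist (D.c m) (z : X) + dist (z : X) (D.c n) :=
      dist_triangle _ _ _
    rw [dist_comm _ (z : X)] at h4
    linarith
  · refine ⟨0, fun f => ?_⟩
    push Not at h
    have h0 : G D f z = 0 := by
      rw [G, dif_neg]
      push Not
      exact h
    exact ⟨by rw [h0, P_zero D f (h 0)], fun m _ => P_zero D f (h m)⟩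

theorem G_lip (f : ℕ → Lip0 N o) {C : ℝ} (hC : ∀ i, ‖f i‖ ≤ C) (hC0 : 0 ≤ C) (z z' : N) :
    |G D f z - G D f z'| ≤ 6 * D.K * C * dist z z' := by
  have hK := D.hK
  have hPl : ∀ n, |P D n f (D.π n z) - P D n f (D.π n z')| ≤ 3 * C * (D.K * dist z z') := by
    intro n
    refine (P_lip D n f hC hC0 _ _).trans ?_
    exact mul_le_mul_of_nonneg_left (D.π_lip n z z') (by positivity)
  obtain ⟨n, hn⟩ := G_alt D z
  obtain ⟨m, hm⟩ := G_alt D z'
  have hd : 0 ≤ dist z z' := dist_nonneg
  rcases eq_or_ne n m with rfl | hne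
  · rw [(hn f).1, (hm f).1]
    refine (hPl n).trans ?_
    have : 0 ≤ D.K * C * dist z z' := by positivity
    nlinarith
  · have e : G D f z - G D f z' =
        (P D n f (D.π n z) - P D n f (D.π n z')) + (P D m f (D.π m z) - P D m f (D.π m z')) := by
      rw [(hn f).1, (hm f).1, (hn f).2 m hne.symm, (hm f).2 n hne]
      ring
    rw [e]
    refine (abs_add_le _ _).trans ?_
    have a1 := hPl n
    have a2 := hPl m
    linarith

theorem P_add (n : ℕ) (f g : ℕ → Lip0 N o) (w : N) : P D n (f + g) w = P D n f w + P D n g w := by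
  simp only [P, Pi.add_apply, add_val]
  ring

theorem P_smul (n : ℕ) (a : ℝ) (f : ℕ → Lip0 N o) (w : N) : P D n (a • f) w = a * P D n f w := by
  simp only [P, Pi.smul_apply, smul_val]
  ring

theorem G_add (f g : ℕ → Lip0 N o) (z : N) : G D (f + g) z = G D f z + G D g z := by
  obtain ⟨n, hn⟩ := G_alt D z
  rw [(hn _).1, (hn _).1, (hn _).1, P_add]

theorem G_smul (a : ℝ) (f : ℕ → Lip0 N o) (z : N) : G D (a • f) z = a * G D f z := by
  obtain ⟨n, hn⟩ := G_alt D z
  rw [(hn _).1, (hn _).1, P_smul]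

open Pool.Agent.Helper627_LipNets in
/-- the embedding of the `ℓ_∞`-sum into the space -/
noncomputable def S : Z (Lip0 N o) →L[ℝ] Lip0 N o :=
  LinearMap.mkContinuous
    { toFun := fun f => ⟨fun z => G D (f : ℕ → Lip0 N o) z - G D (f : ℕ → Lip0 N o) o,
        by simp, 6 * D.K * ‖f‖, fun z z' => by
          rw [sub_sub_sub_cancel_right]
          exact G_lip D _ (norm_apply_le' f) (norm_nonneg f) z z'⟩
      map_add' := by
        intro f g
        refine ext' fun z => ?_
        change G D (((f + g : Z (Lip0 N o)) : ℕ → Lip0 N o)) z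
            - G D (((f + g : Z (Lip0 N o)) : ℕ → Lip0 N o)) o =
          (G D (f : ℕ → Lip0 N o) z - G D (f : ℕ → Lip0 N o) o)
            + (G D (g : ℕ → Lip0 N o) z - G D (g : ℕ → Lip0 N o) o)
        rw [lp.coeFn_add, G_add, G_add]
        ring
      map_smul' := by
        intro a f
        refine ext' fun z => ?_
        change G D (((a • f : Z (Lip0 N o)) : ℕ → Lip0 N o)) z
            - G D (((a • f : Z (Lip0 N o)) : ℕ → Lip0 N o)) o =
          a * (G D (f : ℕ → Lip0 N o) z - G D (f : ℕ → Lip0 N o) o)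
        rw [lp.coeFn_smul, G_smul, G_smul]
        ring } (6 * D.K) (by
      intro f
      have hK := D.hK
      refine norm_le (by positivity) fun z z' => ?_
      change |(G D (f : ℕ → Lip0 N o) z - G D (f : ℕ → Lip0 N o) o)
        - (G D (f : ℕ → Lip0 N o) z' - G D (f : ℕ → Lip0 N o) o)| ≤ _
      rw [sub_sub_sub_cancel_right]
      exact G_lip D _ (norm_apply_le' f) (norm_nonneg f) z z')

open Pool.Agent.Helper627_LipNets in
theorem S_val (f : Z (Lip0 N o)) (z : N) :
    (S D f).1 z = G D (f : ℕ → Lip0 N o) z - G D (f : ℕ → Lip0 N o) o := rfl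

/-! The restriction map. -/

/-- scale of a point -/
noncomputable def k0 (w : N) : ℕ := Nat.log 2 ⌊dist w o / D.ε⌋₊

/-- one term of the sum defining the restriction map -/
noncomputable def g (i k : ℕ) (F : Lip0 N o) (w : N) : ℝ :=
  Th (dist w o / rad D k) *
    (F.1 (D.ι (Nat.pair i k) w) - F.1 (D.ι (Nat.pair i k) o))

/-- the restriction map, `i`-th component -/
noncomputable def Rf (i : ℕ) (F : Lip0 N o) (w : N) : ℝ :=
  ∑ k ∈ ({k0 D w, k0 D w + 1} : Finset ℕ), g D i k F w

theorem scale {w : N} (hw : w ≠ o) :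
    rad D (k0 D w) ≤ dist w o ∧ dist w o < 2 * rad D (k0 D w) := by
  have hε := D.hε
  have h1 : 1 ≤ dist w o / D.ε := by
    rw [le_div_iff₀ hε, one_mul]
    exact D.sep w hw
  have h2 : ⌊dist w o / D.ε⌋₊ ≠ 0 := by
    have : 1 ≤ ⌊dist w o / D.ε⌋₊ := Nat.le_floor (by simpa using h1)
    omega
  have h3 : 2 ^ (k0 D w) ≤ ⌊dist w o / D.ε⌋₊ := Nat.pow_log_le_self 2 h2
  have h4 : ⌊dist w o / D.ε⌋₊ < 2 ^ (k0 D w + 1) := Nat.lt_pow_succ_log_self (by norm_num) _
  constructor
  · have h5 : ((2 ^ (k0 D w) : ℕ) : ℝ) ≤ dist w o / D.ε :=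
      (Nat.cast_le.2 h3).trans (Nat.floor_le (by positivity))
    rw [le_div_iff₀ hε] at h5
    push_cast at h5
    rw [rad]
    linarith
  · have h5 : dist w o / D.ε < ((2 ^ (k0 D w + 1) : ℕ) : ℝ) := (Nat.floor_lt (by positivity)).1 h4
    rw [div_lt_iff₀ hε] at h5
    push_cast at h5
    rw [rad]
    rw [pow_succ] at h5
    linarith

theorem rad_lt {k l : ℕ} (h : rad D k < 2 * rad D l) : k ≤ l := by
  by_contra hlt
  push Not at hlt
  have h1 : (2 : ℝ) ^ (l + 1) ≤ 2 ^ k := pow_le_pow_right₀ (by norm_num) hlt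
  have h2 := D.hε
  have h3 : D.ε * 2 ^ (l + 1) ≤ D.ε * 2 ^ k := mul_le_mul_of_nonneg_left h1 h2.le
  simp only [rad] at h
  rw [pow_succ] at h3
  linarith

theorem g_zero {i k : ℕ} (F : Lip0 N o) {w : N} (hk : k ∉ ({k0 D w, k0 D w + 1} : Finset ℕ)) :
    g D i k F w = 0 := by
  by_contra hne
  have h1 : Th (dist w o / rad D k) ≠ 0 := by
    intro h0
    apply hne
    rw [g, h0, zero_mul]
  obtain ⟨h2, h3⟩ := Th_ne h1
  have hr := rad_pos D k
  have hw : w ≠ o := by
    rintro rfl
    rw [dist_self, zero_div] at h2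
    norm_num at h2
  obtain ⟨h4, h5⟩ := scale D hw
  rw [lt_div_iff₀ hr] at h2
  rw [div_lt_iff₀ hr] at h3
  apply hk
  have h6 : k0 D w ≤ k := rad_lt D (by linarith)
  have h7 : k ≤ k0 D w + 1 := rad_lt D (by
    have : rad D (k0 D w + 1) = 2 * rad D (k0 D w) := by
      simp only [rad]; rw [pow_succ]; ring
    rw [this]
    linarith)
  simp only [Finset.mem_insert, Finset.mem_singleton]
  omega

theorem Rf_eq (i : ℕ) (F : Lip0 N o) (w : N) {A : Finset ℕ}
    (hA : ({k0 D w, k0 D w + 1} : Finset ℕ) ⊆ A) : Rf D i F w = ∑ k ∈ A, g D i k F w :=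
  Finset.sum_subset hA fun _ _ hk => g_zero D F hk

theorem g_lip (i k : ℕ) (F : Lip0 N o) (w w' : N) :
    |g D i k F w - g D i k F w'| ≤ 5 * D.K * ‖F‖ * dist w w' := by
  have hr := rad_pos D k
  have hK := D.hK
  have hF := norm_nonneg F
  have := cut_lip (o := o) (φ := fun w => Th (dist w o / rad D k))
    (h := fun w => F.1 (D.ι (Nat.pair i k) w) - F.1 (D.ι (Nat.pair i k) o)) (A := 2) (B := 2)
    (r := rad D k) (L := D.K * ‖F‖) hr (by norm_num) (by norm_num) (by positivity)
    (fun w => Th_nonneg _) (fun w => Th_le_one _) ?_ ?_ (sub_self _) ?_ w w'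
  · refine this.trans (le_of_eq ?_)
    ring
  · intro w w'
    refine (Th_lip _ _).trans ?_
    rw [← sub_div, abs_div, abs_of_pos hr]
    have h1 : |dist w o - dist w' o| ≤ dist w w' := abs_dist_sub_le _ _ _
    have h2 : 2 / rad D k * dist w w' = 2 * (dist w w' / rad D k) := by ring
    rw [h2]
    exact mul_le_mul_of_nonneg_left (div_le_div_of_nonneg_right h1 hr.le) (by norm_num)
  · intro w hw
    have h := (Th_ne hw).2
    rw [div_lt_iff₀ hr] at h
    exact h.le
  · intro w w'
    rw [sub_sub_sub_cancel_right]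
    calc |F.1 (D.ι (Nat.pair i k) w) - F.1 (D.ι (Nat.pair i k) w')|
        ≤ ‖F‖ * dist (D.ι (Nat.pair i k) w) (D.ι (Nat.pair i k) w') := le_norm _ _ _
      _ ≤ ‖F‖ * (D.K * dist w w') := mul_le_mul_of_nonneg_left (D.ι_lip _ _ _) hF
      _ = D.K * ‖F‖ * dist w w' := by ring

theorem Rf_lip (i : ℕ) (F : Lip0 N o) (w w' : N) :
    |Rf D i F w - Rf D i F w'| ≤ 20 * D.K * ‖F‖ * dist w w' := by
  set A : Finset ℕ := {k0 D w, k0 D w + 1} ∪ {k0 D w', k0 D w' + 1} with hA
  rw [Rf_eq D i F w (A := A) Finset.subset_union_left,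
    Rf_eq D i F w' (A := A) Finset.subset_union_right, ← Finset.sum_sub_distrib]
  have hcard : (A.card : ℝ) ≤ 4 := by
    have : A.card ≤ 4 := by
      refine (Finset.card_union_le _ _).trans ?_
      have h1 : ({k0 D w, k0 D w + 1} : Finset ℕ).card ≤ 2 := Finset.card_le_two
      have h2 : ({k0 D w', k0 D w' + 1} : Finset ℕ).card ≤ 2 := Finset.card_le_two
      omega
    exact_mod_cast this
  have hK := D.hK
  have hF := norm_nonneg F
  calc |∑ k ∈ A, (g D i k F w - g D i k F w')|
      ≤ ∑ k ∈ A, |g D i k F w - g D i k F w'| := Finset.abs_sum_le_sum_abs _ _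
    _ ≤ ∑ _k ∈ A, 5 * D.K * ‖F‖ * dist w w' := Finset.sum_le_sum fun k _ => g_lip D i k F w w'
    _ = A.card * (5 * D.K * ‖F‖ * dist w w') := by rw [Finset.sum_const, nsmul_eq_mul]
    _ ≤ 4 * (5 * D.K * ‖F‖ * dist w w') := mul_le_mul_of_nonneg_right hcard (by positivity)
    _ = 20 * D.K * ‖F‖ * dist w w' := by ring

theorem Rf_base (i : ℕ) (F : Lip0 N o) : Rf D i F o = 0 :=
  Finset.sum_eq_zero fun k _ => by rw [g, sub_self, mul_zero]

/-- the restriction map, `i`-th component, as a linear map -/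
noncomputable def Rl (i : ℕ) : Lip0 N o →ₗ[ℝ] Lip0 N o where
  toFun F := ⟨Rf D i F, Rf_base D i F, 20 * D.K * ‖F‖, Rf_lip D i F⟩
  map_add' F F' := ext' fun w => by
    change Rf D i (F + F') w = Rf D i F w + Rf D i F' w
    simp only [Rf, ← Finset.sum_add_distrib]
    refine Finset.sum_congr rfl fun k _ => ?_
    simp only [g, add_val]
    ring
  map_smul' a F := ext' fun w => by
    change Rf D i (a • F) w = a * Rf D i F w
    simp only [Rf, Finset.mul_sum]
    refine Finset.sum_congr rfl fun k _ => ?_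
    simp only [g, smul_val]
    ring

open Pool.Agent.Helper627_LipNets in
/-- the projection onto the `ℓ_∞`-sum -/
noncomputable def R : Lip0 N o →L[ℝ] Z (Lip0 N o) :=
  lift (Rl D) (20 * D.K) (by have := D.hK; positivity) (by
    intro i F
    have hK := D.hK
    exact norm_le (by positivity) (Rf_lip D i F))

open Pool.Agent.Helper627_LipNets in
theorem R_val (i : ℕ) (F : Lip0 N o) (w : N) : ((R D F) i).1 w = Rf D i F w := rfl

open Pool.Agent.Helper627_LipNets in
theorem RS (f : Z (Lip0 N o)) : R D (S D f) = f := by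
  apply lp.ext
  funext i
  refine ext' fun w => ?_
  rw [R_val]
  rcases eq_or_ne w o with rfl | hw
  · rw [Rf_base, base]
  have hterm : ∀ k, g D i k (S D f) w = Th (dist w o / rad D k) * ((f : ℕ → Lip0 N o) i).1 w := by
    intro k
    rw [g]
    by_cases h0 : Th (dist w o / rad D k) = 0
    · rw [h0, zero_mul, zero_mul]
    · congr 1
      have hr := rad_pos D k
      have h1 := (Th_ne h0).2
      rw [div_lt_iff₀ hr] at h1
      rw [S_val, S_val, sub_sub_sub_cancel_right]
      have hn1 : dist (D.ι (Nat.pair i k) w : X) (D.c (Nat.pair i k)) < D.s (Nat.pair i k) := by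
        apply D.ι_near
        rw [Nat.unpair_pair]
        exact h1.le
      have hn2 : dist (D.ι (Nat.pair i k) o : X) (D.c (Nat.pair i k)) < D.s (Nat.pair i k) := by
        apply D.ι_near
        rw [dist_self, Nat.unpair_pair]
        have := hr
        simp only [rad] at this
        linarith
      rw [G_eq D _ hn1, G_eq D _ hn2, D.πι, D.πι, P, P, base, mul_zero, sub_zero, Nat.unpair_pair]
      rw [rh_eq_one, one_mul]
      rw [div_le_one (by positivity)]
      exact h1.le
  rw [Rf, Finset.sum_pair (by omega), hterm, hterm, ← add_mul]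
  obtain ⟨h4, h5⟩ := scale D hw
  have hr := rad_pos D (k0 D w)
  have e : dist w o / rad D (k0 D w + 1) = dist w o / rad D (k0 D w) / 2 := by
    have : rad D (k0 D w + 1) = rad D (k0 D w) * 2 := by
      simp only [rad]; rw [pow_succ]; ring
    rw [this, div_div]
  rw [e, Th_sum, one_mul]
  · rw [le_div_iff₀ hr, one_mul]; exact h4
  · rw [div_le_iff₀ hr]; exact h5.le

end main

/-- **Main result.** For every real normed space `X`, every net `N` in `X` and every base point
`o ∈ N`, the Banach space `Lip₀(N)` is linearly isomorphic to its countable `ℓ_∞`-sum. -/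
theorem result {X : Type*} [NormedAddCommGroup X] [NormedSpace ℝ X] (N : Set X) (hN : IsNet N)
    (o : N) : Nonempty (Lip0 N o ≃L[ℝ] lp (fun _ : ℕ => Lip0 N o) ∞) := by
  rcases subsingleton_or_nontrivial X with hX | hX
  · have h1 : Subsingleton (Lip0 N o) := ⟨fun f g => ext' fun x => by
      rw [Subsingleton.elim x o, base, base]⟩
    have h2 : Subsingleton (lp (fun _ : ℕ => Lip0 N o) ∞) := ⟨fun f g => by
      apply lp.ext
      funext n
      exact Subsingleton.elim _ _⟩
    exact ⟨ContinuousLinearEquiv.equivOfInverse 0 0 (fun x => Subsingleton.elim _ _)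
      (fun x => Subsingleton.elim _ _)⟩
  · obtain ⟨D⟩ := exists_data hN o
    exact Pool.Agent.Helper627_LipNets.decomposition (S D) (R D) (RS D)

end Pool.Agent.Results.MP_1d1573_an.NetsInfiniteSum
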